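import Pool.Agent.H93.CP.Targets
import Pool.Agent.H34.CS.Bro

/-!
# Row BRO: Brouwer's theorem for `K × Cantor`
-/

set_option autoImplicit false

open Set Filter Topology Pool.Agent.H93.CP

namespace Pool.Agent.H11.CPT

theorem perf (K : Type) [TopologicalSpace K] (U : Set (K × (ℕ → Bool))) (hU : IsOpen U)
    (hne : U.Nonempty) : ∃ x ∈ U, ∃ y ∈ U, x ≠ y := by
  obtain ⟨⟨a, p⟩, hap⟩ := hne
  -- the sequence p with the n-th coordinate flipped converges to p
  have hlim : Tendsto (fun n : ℕ => ((a, Function.update p n (!(p n))) : K × (ℕ → Bool))) atTop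
      (𝓝 (a, p)) := by
    apply Tendsto.prodMk_nhds tendsto_const_nhds
    rw [tendsto_pi_nhds]
    intro i
    apply tendsto_const_nhds.congr'
    filter_upwards [eventually_gt_atTop i] with n hn
    rw [Function.update_of_ne (by omega)]
  have hev := hlim.eventually (hU.mem_nhds hap)
  obtain ⟨n, hn⟩ := hev.exists
  refine ⟨(a, p), hap, _, hn, ?_⟩
  intro h
  have h2 : p = Function.update p n (!(p n)) := (Prod.mk.inj h).2
  have h3 : p n = (!(p n)) := by
    have := congrFun h2 n
    rwa [Function.update_self] at this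
  cases hp : p n <;> simp [hp] at h3

theorem pf_BRO : T_BRO := by
  intro K _ _ _ _ _ _
  obtain ⟨e⟩ := Pool.Agent.H34.CS.cantor_homeo (X := K × (ℕ → Bool)) (perf K)
  exact ⟨e⟩

end Pool.Agent.H11.CPT
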